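import Pool.Agent.Y241.HK.Sums

set_option autoImplicit false

/-!
# Hilbert–Kunz multiplicities descending from above, in iterated limits (MP_f00780_ag)

For every prime `p`, every finite field `F` of characteristic `p` and every dimension `d ≥ 2` the
set of the Hilbert–Kunz multiplicities of the singular local rings of dimension `d`, essentially of
finite type over `F`, contains a strictly decreasing sequence `a` with limit `4p/(p+1) < 4`, together
with all finite sums of its terms (plus arbitrary natural numbers). So it has `k`-fold iterated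
limits from above for every `k`.
-/

namespace Pool.Agent.Results.MP_f00780_ag.IteratedLimits

open Filter Topology IsLocalRing

universe u

/-- The ideal generated by the `q`-th powers of the elements of `I`
(the Frobenius power `I^[q]` when `q` is a power of the characteristic). -/
def frobeniusPower {R : Type u} [CommRing R] (I : Ideal R) (q : ℕ) : Ideal R :=
  Ideal.span {y | ∃ x ∈ I, y = x ^ q}

/-- The local ring `R` has Hilbert–Kunz multiplicity `a`, computed with the exponent `d`
(in the theorem `d` is the Krull dimension of `R`): all lengths of `R / m^[p^e]` are finite and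
`length (R / m^[p^e]) / p^(e d)` tends to `a`. -/
def HasHilbertKunzMultiplicity (p : ℕ) (R : Type u) [CommRing R] [IsLocalRing R] (d : ℕ)
    (a : ℝ) : Prop :=
  (∀ e : ℕ, Module.length R (R ⧸ frobeniusPower (maximalIdeal R) (p ^ e)) ≠ ⊤) ∧
  Tendsto (fun e : ℕ =>
    ((Module.length R (R ⧸ frobeniusPower (maximalIdeal R) (p ^ e))).toNat : ℝ) /
      (p : ℝ) ^ (e * d)) atTop (𝓝 a)

/-- The Hilbert–Kunz multiplicities of the local rings `A_P`, `A` a finitely generated `F`-algebra
and `P` a maximal ideal of `A`, which are singular (not regular) of dimension `d`. -/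
def hilbertKunzValues (F : Type u) [Field F] (p d : ℕ) : Set ℝ :=
  {x | ∃ (A : Type u) (_ : CommRing A) (_ : Algebra F A) (P : Ideal A) (_ : P.IsMaximal),
    Algebra.FiniteType F A ∧
    ringKrullDim (Localization.AtPrime P) = d ∧
    ¬ IsRegularLocalRing (Localization.AtPrime P) ∧
    HasHilbertKunzMultiplicity p (Localization.AtPrime P) d x}

/-- The limits of the strictly decreasing sequences in `V`. -/
def limitsFromAbove (V : Set ℝ) : Set ℝ :=
  {x | ∃ b : ℕ → ℝ, StrictAnti b ∧ (∀ n, b n ∈ V) ∧ Tendsto b atTop (𝓝 x)}

/-- For every prime `p`, every finite field `F` of characteristic `p` and every `d ≥ 2`: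
(1) there is a strictly decreasing sequence `a` with limit `4p/(p+1)` such that every number
`a n₁ + ... + a n_k + c` (`k ≥ 1`, `c ≥ 0` an integer) is the Hilbert–Kunz multiplicity of a
singular local ring of dimension `d`, essentially of finite type over `F`;
(2) for all `k ≥ 1` and `c ≥ 0` the number `4pk/(p+1) + c` is the limit of a strictly decreasing
sequence of such multiplicities, and it is even a `k`-fold iterated limit from above of such
multiplicities. -/
theorem result (p : ℕ) (hp : p.Prime) (F : Type u) [Field F] [Finite F] [CharP F p]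
    (d : ℕ) (hd : 2 ≤ d) :
    (∃ a : ℕ → ℝ, StrictAnti a ∧ Tendsto a atTop (𝓝 (4 * p / (p + 1))) ∧
      ∀ (s : Multiset ℕ) (c : ℕ), s ≠ 0 → (s.map a).sum + c ∈ hilbertKunzValues F p d) ∧
    ∀ k c : ℕ, 1 ≤ k →
      (k : ℝ) * (4 * p / (p + 1)) + c ∈ limitsFromAbove (hilbertKunzValues F p d) ∧
      (k : ℝ) * (4 * p / (p + 1)) + c ∈ limitsFromAbove^[k] (hilbertKunzValues F p d) := by
  have : Fact p.Prime := ⟨hp⟩
  obtain ⟨a, ha, hlim, hval⟩ := Pool.Agent.Y241.HK.main_sums p F d hd
  set α : ℝ := 4 * p / (p + 1) with hα
  have hval' : ∀ (s : Multiset ℕ) (c : ℕ), s ≠ 0 →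
      (s.map a).sum + c ∈ hilbertKunzValues F p d := by
    intro s c hs
    obtain ⟨S, _, _, M, _, h1, h2, h3, h4, h5⟩ := hval s c hs
    refine ⟨S, inferInstance, inferInstance, M, inferInstance, h1, h2, h3, h4, ?_⟩
    refine h5.congr fun e => ?_
    rw [pow_mul]
    rfl
  refine ⟨⟨a, ha, hlim, hval'⟩, ?_⟩
  -- iterated limits
  have key : ∀ (j : ℕ) (s : Multiset ℕ) (c : ℕ), (s ≠ 0 ∨ 1 ≤ j) →
      (s.map a).sum + j * α + c ∈ limitsFromAbove^[j] (hilbertKunzValues F p d) := by
    intro j
    induction j with
    | zero =>
      intro s c hs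
      have hs' : s ≠ 0 := by
        rcases hs with h | h
        · exact h
        · omega
      simpa using hval' s c hs'
    | succ j ih =>
      intro s c _
      rw [Function.iterate_succ_apply']
      refine ⟨fun n => ((n ::ₘ s).map a).sum + j * α + c, ?_, fun n => ?_, ?_⟩
      · intro m n hmn
        have := ha hmn
        simp only [Multiset.map_cons, Multiset.sum_cons]
        linarith
      · exact ih _ c (Or.inl (Multiset.cons_ne_zero))
      · have h1 : Tendsto (fun n => a n + ((s.map a).sum + j * α + c)) atTop
            (𝓝 (α + ((s.map a).sum + j * α + c))) := hlim.add_const _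
        have h2 : (s.map a).sum + ((j + 1 : ℕ) : ℝ) * α + c = α + ((s.map a).sum + j * α + c) := by
          push_cast
          ring
        rw [h2]
        refine h1.congr fun n => ?_
        rw [Multiset.map_cons, Multiset.sum_cons]
        ring
  intro k c hk
  constructor
  · refine ⟨fun n => ((Multiset.replicate k n).map a).sum + c, ?_, fun n => ?_, ?_⟩
    · intro m n hmn
      have h1 := ha hmn
      have h2 : (0 : ℝ) < k := by exact_mod_cast hk
      simp only [Multiset.map_replicate, Multiset.sum_replicate, nsmul_eq_mul]
      nlinarith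
    · refine hval' _ c ?_
      intro h0
      have := congrArg Multiset.card h0
      rw [Multiset.card_replicate, Multiset.card_zero] at this
      omega
    · have h1 : Tendsto (fun n => (k : ℝ) * a n + c) atTop (𝓝 ((k : ℝ) * α + c)) :=
        (hlim.const_mul _).add_const _
      refine h1.congr fun n => ?_
      rw [Multiset.map_replicate, Multiset.sum_replicate, nsmul_eq_mul]
  · have := key k 0 c (Or.inr hk)
    simpa using this

end Pool.Agent.Results.MP_f00780_ag.IteratedLimits
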